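import Pool.Agent.Helper66.PLM.Fin

/-!
# A perfect subset of `^{ω₁}ω₁` inside `L(ℝ)` refutes `MA⁺⁺(σ-closed)`

Let `N` be an inner model or `N = L(ℝ)`, such that every subset of `ω₁` in `N` contains or is
disjoint from a club and the functions `α ↦ otp (π[α] ∩ η)` agree on a club with functions in `N`.
Let `κ → (ω₁)^{<ω}_λ`, `λ = 2^{2^ω}`.  If some perfect set `[T]` is contained in `N`, then
`MA⁺⁺(σ-closed)` fails.
-/

open Ordinal Pool.Agent.Helper66.PLR Pool.Agent.Helper66.PLM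

namespace Pool.Agent.Results.MP_056c0b_lc.ForcingAxiomFails

theorem result (κ : Ordinal.{0}) (hκ : Erdos κ) (N : Set ZFSet.{0}) (hN : IsInner N ∨ N = LR)
    (hcan : ∀ (π : Ordinal.{0} → Ordinal.{0}) (η : Ordinal.{0}), ∃ f, IsPt f ∧ graph f ∈ N ∧
      ∃ C, IsClubIn C ∧ ∀ α ∈ C, Otp (img π α η) (f α))
    (hclub : ∀ a ∈ N, ∃ C, IsClubIn C ∧
      ((∀ α ∈ C, α.toZFSet ∈ a) ∨ ∀ α ∈ C, α.toZFSet ∉ a))
    (T : Set (Ordinal.{0} × (Ordinal.{0} → Ordinal.{0}))) (hT : PerfectTree T)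
    (h : ∀ x ∈ branches T, graph x ∈ N) : ¬ MApp := by
  intro hMA
  obtain ⟨x, hx, π, η, η', h1, h2⟩ := main_comb Pool.Agent.Helper59.PLM.st_SML hMA hκ hT
  obtain ⟨a, ha, ha1, ha2⟩ := fin_inner hN h1 h2 hcan hx.1 (h x hx)
  obtain ⟨C, hC, h3 | h3⟩ := hclub a ha
  · obtain ⟨γ, hγ, h4⟩ := ha2 C hC
    exact h4 (h3 γ hγ)
  · obtain ⟨γ, hγ, h4⟩ := ha1 C hC
    exact h3 γ hγ h4

end Pool.Agent.Results.MP_056c0b_lc.ForcingAxiomFails
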