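import Pool.Agent.Helper66.PLR.Miller

/-!
# Superperfect subsets of `^{ω₁}ω₁` inside `L(ℝ)`

Let `N` be an inner model of ZF, or `N = L(ℝ)`.  If all branches of some `ω₁`-Miller tree `T` are
in `N`, where `T` may have a delay that is bounded by a function in `N` (the usual Miller trees
have the delay `α ↦ α + 1`, see `miller_of_continuous` and `graph_sc_mem`), then all functions from
`ω₁` to `ω₁` are in `N`.
-/

open Ordinal Pool.Agent.Helper66.PLR

namespace Pool.Agent.Results.MP_056c0b_lc.MillerSets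

/-- Let `N` be an inner model or `N = L(ℝ)`.  There are a function `h : ω₁ → ω₁` in `N` and an
`ω₁`-Miller tree `T` with delay `h` with `[T] ⊆ N` if and only if `^{ω₁}ω₁ ⊆ N`. -/
theorem result (N : Set ZFSet.{0}) (hN : IsInner N ∨ N = LR) :
    (∃ (h : Ordinal.{0} → Ordinal.{0}) (T : Set (Ordinal.{0} × (Ordinal.{0} → Ordinal.{0}))),
      IsPt h ∧ graph h ∈ N ∧ IsMiller h T ∧ ∀ x ∈ branches T, graph x ∈ N) ↔
    ∀ x : Ordinal.{0} → Ordinal.{0}, IsPt x → graph x ∈ N := by
  constructor
  · rintro ⟨h, T, hh, hhN, hT, hTN⟩ x hx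
    rcases hN with hN | rfl
    · exact miller_inner hN hh hhN hT hTN hx
    · intro M hM hR
      exact miller_inner hM hh (hhN M hM hR) hT (fun y hy => hTN y hy M hM hR) hx
  · intro h
    exact ⟨sc, _, isPt_sc, h sc isPt_sc, full_isMiller, fun x hx => h x hx.1⟩

end Pool.Agent.Results.MP_056c0b_lc.MillerSets
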