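import Pool.Agent.Helper66.PLR.Cont

/-!
# Perfect trees that are continuous at the levels in `E`

Let `N` be an inner model or `N = L(ℝ)`, and let `T` be a `<ω₁`-closed tree in which good splitting
nodes are dense and limits of good splitting nodes with length in `E` are good splitting nodes.  If
`[T] ⊆ N`, then every subset of `ω₁` agrees on `C ∩ E`, for some club `C`, with a member of `N`.
-/

open Ordinal Pool.Agent.Helper66.PLR

namespace Pool.Agent.Results.MP_056c0b_lc.StationaryContinuity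

theorem result (N : Set ZFSet.{0}) (hN : IsInner N ∨ N = LR) (E : Set Ordinal.{0})
    (T : Set (Ordinal.{0} × (Ordinal.{0} → Ordinal.{0})))
    (S : Ordinal.{0} → (Ordinal.{0} → Ordinal.{0}) → Prop) (hT : ContPerfect E T S)
    (h : ∀ x ∈ branches T, graph x ∈ N) (A : Ordinal.{0} → Prop) :
    ∃ a ∈ N, a ⊆ (ω₁ : Ordinal.{0}).toZFSet ∧
      ∃ C : Set Ordinal.{0}, IsClubIn C ∧ ∀ γ ∈ C, γ ∈ E → (γ.toZFSet ∈ a ↔ A γ) := by
  obtain ⟨x, hx, y, hy, C, hC, hxy⟩ := exists_pairE hT A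
  refine ⟨subs (fun γ => x γ < y γ), ?_, ?_, C, hC, fun γ hγ hγE => ?_⟩
  · rcases hN with hN | rfl
    · exact cmp_mem hN hx.1 hy.1 (h x hx) (h y hy)
    · intro M hM hR
      exact cmp_mem hM hx.1 hy.1 (h x hx M hM hR) (h y hy M hM hR)
  · intro z hz
    obtain ⟨β, hβ, _, rfl⟩ := mem_subs.1 hz
    exact Ordinal.toZFSet_mem_toZFSet_iff.2 hβ
  · rw [toZFSet_mem_subs (hC.1 γ hγ)]
    exact hxy γ hγ hγE

end Pool.Agent.Results.MP_056c0b_lc.StationaryContinuity
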